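import Pool.Agent.H828_QC.W

/-!
# MP_484ff1_al: an uncountable chain of quasi-parabolic structures on `ℤ ≀ ℤ`

For a subset `A` of `ℕ` let the `j`-th prime enter at the time `j + 1` if `j` is in `A`, and at the
time `2 (j + 1)` if it is not, and let `D_A (-n)` be the product of the primes that have entered by the
time `n`. The subgroup `Q_A` of the functions `f` in the base group of `ℤ ≀ ℤ` with
`D_A i ∣ f i` for all `i` is mapped into itself by the conjugation with the generator `t`, and its
translates by `t ^ (-n)` exhaust the base group, so `Q_A ∪ {t}` is a generating set for which the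
Cayley graph is quasi-isometric to a tree, the Bass-Serre tree of an ascending HNN extension. The structure of `A` is
`≼` the structure of `B` if and only if `Q_B` is contained in a translate of `Q_A`, if and only if
`A \ B` is finite. So `H_qp (ℤ ≀ ℤ)` contains a copy of the power set of `ℕ` modulo finite sets, in
particular chains that are isomorphic to the real line.
-/

set_option autoImplicit false

namespace Pool.Agent.Results.MP_484ff1_al.UncountableChain

open Pool.Agent.H828_QC
open Classical

/-- The time at which the `j`-th prime enters. -/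
noncomputable def en (A : Set ℕ) (j : ℕ) : ℕ := if j ∈ A then j + 1 else 2 * (j + 1)

/-- The `j`-th prime number. -/
noncomputable def P (j : ℕ) : ℕ := Nat.nth Nat.Prime j

theorem P_prime (j : ℕ) : (P j).Prime := Nat.prime_nth_prime j

theorem P_inj {i j : ℕ} (h : P i = P j) : i = j := Nat.nth_injective Nat.infinite_setOfPred_prime h

/-- The product of the primes that have entered by the time `-i`. -/
noncomputable def DA (A : Set ℕ) (i : ℤ) : ℤ :=
  ∏ j ∈ (Finset.range (-i).toNat).filter (fun j => (en A j : ℤ) ≤ -i), (P j : ℤ)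

theorem lt_en (A : Set ℕ) (j : ℕ) : j < en A j := by
  unfold en; split_ifs <;> omega

theorem mem_iff (A : Set ℕ) (i : ℤ) (j : ℕ) :
    j ∈ (Finset.range (-i).toNat).filter (fun j => (en A j : ℤ) ≤ -i) ↔ (en A j : ℤ) ≤ -i := by
  rw [Finset.mem_filter, Finset.mem_range]
  have := lt_en A j
  constructor
  · exact fun h => h.2
  · exact fun h => ⟨by omega, h⟩

theorem dvd_iff (A : Set ℕ) (i : ℤ) (j : ℕ) : (P j : ℤ) ∣ DA A i ↔ (en A j : ℤ) ≤ -i := by
  unfold DA
  rw [Prime.dvd_finsetProd_iff (Nat.prime_iff_prime_int.1 (P_prime j))]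
  constructor
  · rintro ⟨j', hj', h⟩
    rw [mem_iff] at hj'
    have h1 : P j ∣ P j' := by exact_mod_cast h
    have h2 := P_inj ((Nat.prime_dvd_prime_iff_eq (P_prime j) (P_prime j')).1 h1)
    rw [h2]; exact hj'
  · intro h
    exact ⟨j, (mem_iff A i j).2 h, dvd_rfl⟩

theorem dvd_of {A B : Set ℕ} {i i' : ℤ}
    (h : ∀ j : ℕ, (en A j : ℤ) ≤ -i → (en B j : ℤ) ≤ -i') : DA A i ∣ DA B i' := by
  apply Finset.prod_dvd_prod_of_subset
  intro j hj
  rw [mem_iff] at hj ⊢
  exact h j hj

theorem good (A : Set ℕ) : Good (DA A) where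
  one i hi := by
    unfold DA
    rw [Int.toNat_of_nonpos (by omega)]
    simp
  dvd i j h := dvd_of fun k hk => by omega
  unb m hm := by
    obtain ⟨p, hp, hp'⟩ := Nat.exists_infinite_primes (m.natAbs + 1)
    have h1 : P (Nat.count Nat.Prime p) = p := Nat.nth_count hp'
    refine ⟨-(en A (Nat.count Nat.Prime p) : ℤ), fun h => ?_⟩
    have h2 : ((P (Nat.count Nat.Prime p) : ℕ) : ℤ) ∣ m :=
      ((dvd_iff A _ _).2 (by omega)).trans h
    rw [h1] at h2
    have h3 := Nat.le_of_dvd (Int.natAbs_pos.2 hm) (Int.natCast_dvd.1 h2)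
    omega

theorem le_iff (A B : Set ℕ) :
    (∃ C : ℕ, ∀ x ∈ XX (DA B), len (XX (DA A)) x ≤ C) ↔ (A \ B).Finite := by
  constructor
  · rintro ⟨C, hC⟩
    refine (Set.finite_Iic C).subset ?_
    rintro j ⟨hjA, hjB⟩
    have h1 := hC (el (Finsupp.single (-(2 * j + 1 : ℤ)) (DA B (-(2 * j + 1 : ℤ))))) (by
      refine Or.inl ⟨rfl, fun i => ?_⟩
      rw [el_c, Finsupp.single_apply]
      split_ifs with h
      · rw [h]
      · exact dvd_zero _)
    have h2 := ln_XX_lower (good A)
      (el (Finsupp.single (-(2 * j + 1 : ℤ)) (DA B (-(2 * j + 1 : ℤ)))))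
    have h3 := MM_agr (good A) 1
      (el (Finsupp.single (-(2 * j + 1 : ℤ)) (DA B (-(2 * j + 1 : ℤ))))) (-(2 * j + 1 : ℤ))
    rw [one_c, el_c, Finsupp.single_eq_same, zero_sub, dvd_neg] at h3
    unfold DD at h2
    rw [one_k, el_k] at h2
    set l := MM (good A) 1 (el (Finsupp.single (-(2 * j + 1 : ℤ)) (DA B (-(2 * j + 1 : ℤ)))))
    have h4 : ¬ (en A j : ℤ) ≤ -(-(2 * j + 1 : ℤ) - l) := by
      intro h
      have h5 := ((dvd_iff A _ j).2 h).trans h3
      rw [dvd_iff] at h5
      unfold en at h5
      rw [if_neg hjB] at h5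
      push_cast at h5
      omega
    unfold en at h4
    rw [if_pos hjA] at h4
    push_cast at h4
    rw [Set.mem_Iic]
    omega
  · intro h
    obtain ⟨k, hk⟩ := h.bddAbove
    refine ⟨2 * (k + 1) + 1, fun x hx => ?_⟩
    rcases hx with ⟨hx, hx'⟩ | hx
    · have h1 : Agr (DA A) 1 x (-(k + 1 : ℕ) : ℤ) := by
        intro i
        rw [one_c, zero_sub, dvd_neg]
        refine (dvd_of fun j hj => ?_).trans (hx' i)
        by_cases hjA : j ∈ A
        · by_cases hjB : j ∈ B
          · unfold en at hj ⊢
            rw [if_pos hjA] at hj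
            rw [if_pos hjB]
            push_cast at hj ⊢
            omega
          · have hjk : j ≤ k := hk ⟨hjA, hjB⟩
            unfold en at hj ⊢
            rw [if_pos hjA] at hj
            rw [if_neg hjB]
            push_cast at hj ⊢
            omega
        · unfold en at hj ⊢
          rw [if_neg hjA] at hj
          split_ifs <;> push_cast at hj ⊢ <;> omega
      have h2 := ln_XX_le (good A) h1
      rw [hx] at h2
      omega
    · rw [Set.mem_singleton_iff] at hx
      rw [hx]
      have h3 : len (XX (DA A)) t ≤ 1 := Pool.Agent.H828_QP.ln_mem (Or.inr rfl)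
      omega

/-- The structure that belongs to the set `A`. -/
noncomputable def str (A : Set ℕ) : HQP ZwrZ :=
  toAntisymmetrization (· ≤ ·) (⟨XX (DA A), isQP_XX (good A)⟩ : QPGen ZwrZ)

theorem str_le (A B : Set ℕ) : str A ≤ str B ↔ (A \ B).Finite :=
  toAntisymmetrization_le_toAntisymmetrization_iff.trans (le_iff A B)

/-- The cuts of the rational numbers as sets of natural numbers. -/
def cut (r : ℝ) : Set ℕ := {n | ∃ q : ℚ, Encodable.encode q = n ∧ (q : ℝ) < r}

theorem cut_iff (r s : ℝ) : (cut r \ cut s).Finite ↔ r ≤ s := by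
  constructor
  · intro h
    by_contra hc
    push Not at hc
    obtain ⟨a, ha, ha'⟩ := exists_rat_btwn hc
    obtain ⟨b, hb, hb'⟩ := exists_rat_btwn ha'
    have h1 : (Encodable.encode '' Set.Ioo a b).Infinite :=
      (Set.Ioo_infinite (by exact_mod_cast hb)).image Encodable.encode_injective.injOn
    refine h1 (h.subset ?_)
    rintro _ ⟨q, ⟨hq, hq'⟩, rfl⟩
    have h2 : (q : ℝ) < b := by exact_mod_cast hq'
    have h3 : (a : ℝ) < q := by exact_mod_cast hq
    refine ⟨⟨q, rfl, h2.trans hb'⟩, ?_⟩
    rintro ⟨q', h4, h5⟩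
    rw [Encodable.encode_injective h4] at h5
    linarith
  · intro h
    have : cut r \ cut s = ∅ := by
      rw [Set.sdiff_eq_empty]
      rintro _ ⟨q, rfl, hq⟩
      exact ⟨q, rfl, hq.trans_le h⟩
    rw [this]
    exact Set.finite_empty

/-- The group `ℤ ≀ ℤ` is finitely generated, and the poset of its quasi-parabolic structures contains
a copy of the power set of `ℕ` modulo finite sets and in it a chain that is isomorphic to the real
line; in particular it contains an uncountable chain. -/
theorem result : Group.FG ZwrZ ∧ ∃ f : Set ℕ → HQP ZwrZ,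
    (∀ A B : Set ℕ, f A ≤ f B ↔ (A \ B).Finite) ∧
    ∃ g : ℝ ↪o HQP ZwrZ, Set.range g ⊆ Set.range f ∧
      IsChain (· ≤ ·) (Set.range g) ∧ ¬ (Set.range g).Countable := by
  obtain ⟨g, hg⟩ : ∃ g : ℝ ↪o HQP ZwrZ, ∀ r, g r = str (cut r) :=
    ⟨OrderEmbedding.ofMapLEIff (fun r => str (cut r)) (fun r s => by rw [str_le, cut_iff]),
      fun r => rfl⟩
  refine ⟨fg, str, str_le, g, ?_, ?_, ?_⟩
  · rintro _ ⟨r, rfl⟩
    exact ⟨cut r, (hg r).symm⟩
  · rintro _ ⟨r, rfl⟩ _ ⟨s, rfl⟩ -
    rcases le_total r s with h | h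
    · exact Or.inl (g.le_iff_le.2 h)
    · exact Or.inr (g.le_iff_le.2 h)
  · intro h
    have h1 := h.preimage_of_injOn (f := g) g.injective.injOn
    rw [Set.preimage_range] at h1
    exact Cardinal.not_countable_real h1

end Pool.Agent.Results.MP_484ff1_al.UncountableChain
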